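import Mathlib
import Pool.Agent.H90.P.Ns
import Pool.Agent.H90.P.Helper386.D5V.Helper386_FF_Place
import Pool.Agent.H90.P.W603.LV.Ord

/-! Wedge products of logarithmic differentials have at most simple poles. -/

set_option autoImplicit false
set_option linter.overlappingInstances false
set_option linter.unusedSectionVars false

open Polynomial FF

namespace Pool.Agent.W619.PQ

open Pool.Agent.W603.LV

section

variable {k K : Type*} [Field k] [Field K] [Algebra k K]

/-- The derivation maps the valuation ring into itself. -/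
def Pres (v : Place k K) (D : Derivation k K K) : Prop := ∀ f, v.Reg f → v.Reg (D f)

theorem der_unit {v : Place k K} {D : Derivation k K K} (hD : Pres v D) {u : K} (hu : v.ord u = 0) :
    Ge v 0 (D u / u) := by
  by_cases hu0 : u = 0
  · left; rw [hu0, div_zero]
  have h1 : Ge v 0 (D u) := hD u (Or.inr hu.ge)
  have h2 : Ge v 0 u⁻¹ := Or.inr (by rw [v.ord_inv, hu]; simp)
  rw [div_eq_mul_inv]
  simpa using h1.mul h2

theorem dlog_mul (D : Derivation k K K) {a b : K} (ha : a ≠ 0) (hb : b ≠ 0) :
    D (a * b) / (a * b) = D a / a + D b / b := by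
  rw [D.leibniz, smul_eq_mul, smul_eq_mul]
  field_simp
  ring

theorem dlog_zpow (D : Derivation k K K) {a : K} (ha : a ≠ 0) (n : ℤ) :
    D (a ^ n) / a ^ n = n * (D a / a) := by
  rw [Derivation.leibniz_zpow]
  simp only [smul_eq_mul, zsmul_eq_mul]
  rw [show a ^ n = a ^ (n - 1) * a by rw [← zpow_add_one₀ ha]; congr 1; ring]
  have := zpow_ne_zero (n - 1) ha
  field_simp

end

end Pool.Agent.W619.PQ
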