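import Mathlib
import Pool.Agent.H90.P.Ns
import Pool.Agent.H90.P.Helper386.D5V.Helper386_FF_Place

/-! Definitions: pluricanonical forms, Kodaira dimension `-∞`, uniruledness, for function fields. -/

set_option autoImplicit false
set_option linter.overlappingInstances false
set_option linter.unusedSectionVars false

universe u v

open FF

namespace Pool.Agent.W619.PQ

section

variable (k : Type u) (K : Type v) [Field k] [Field K] [Algebra k K]

variable {k K}

/-- The residue field of the place has transcendence degree at least `n - 1`: for `n` the dimension,
the place is a prime divisor on some normal model of `K`. -/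
def IsDivisorial (v : Place k K) (n : ℕ) : Prop :=
  ∃ y : Fin (n - 1) → K, ∀ p : MvPolynomial (Fin (n - 1)) k, p ≠ 0 →
    MvPolynomial.aeval y p ≠ 0 ∧ v.ord (MvPolynomial.aeval y p) = 0

variable (k K)

end

end Pool.Agent.W619.PQ
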