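import Mathlib
import Pool.Agent.H90.P.Ns
import Pool.Agent.H90.P.Helper386.D5V.Helper386_FF_Fund
import Pool.Agent.H90.P.Helper386.D5V.Helper386_FF_Place

/-! The local computation at a place of the fixed field. -/

set_option autoImplicit false
set_option linter.overlappingInstances false
set_option linter.unusedSectionVars false

open Polynomial FF IntermediateField

namespace Pool.Agent.W619.PQ

open Pool.Agent.W603.LV

section

variable {k K0 K1 K2 : Type*} [Field k] [Field K0] [Field K1] [Field K2] [Algebra k K0]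
  [Algebra k K1] [Algebra k K2] [Algebra K0 K1] [Algebra K1 K2] [Algebra K0 K2]
  [IsScalarTower k K0 K1] [IsScalarTower k K1 K2] [IsScalarTower k K0 K2] [IsScalarTower K0 K1 K2]

/-- A place which is trivial on a subfield is trivial on its algebraic extensions. -/
theorem ord_eq_zero_of_alg [Algebra.IsAlgebraic K0 K1] (w : Place k K2)
    (h : ∀ f : K0, w.ord (algebraMap K0 K2 f) = 0) (f : K1) : w.ord (algebraMap K1 K2 f) = 0 := by
  by_cases hf : f = 0
  · rw [hf, map_zero, w.ord_zero]
  have hr : ∀ a : K0, w.Reg (algebraMap K0 K2 a) := fun a => Or.inr (h a).ge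
  have hint : ∀ y : K1, IsIntegral K0 (algebraMap K1 K2 y) := fun y =>
    ((Algebra.IsAlgebraic.isAlgebraic y).isIntegral).map (IsScalarTower.toAlgHom K0 K1 K2)
  have h1 : w.Reg (algebraMap K1 K2 f) := w.reg_of_isIntegral (A := K0) hr (hint f)
  have h2 : w.Reg (algebraMap K1 K2 f⁻¹) := w.reg_of_isIntegral (A := K0) hr (hint f⁻¹)
  have hf' : algebraMap K1 K2 f ≠ 0 := by simpa using hf
  rw [map_inv₀] at h2
  have h3 := (w.reg_iff hf').1 h1
  have h4 := (w.reg_iff (inv_ne_zero hf')).1 h2
  rw [w.ord_inv] at h4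
  omega

end

section

variable {k L : Type*} [Field k] [Field L] [Algebra k L]
  {G : Subgroup (L ≃ₐ[k] L)} {E0 E : Type*} [Field E0] [Field E] [Algebra k E0] [Algebra k E]
  [Algebra E0 E] [Algebra E L] [Algebra E0 (fixedField G)] [Algebra E0 L]
  [IsScalarTower k E0 E] [IsScalarTower k E L] [IsScalarTower k E0 L]
  [IsScalarTower k E0 (fixedField G)]
  [IsScalarTower E0 E L] [IsScalarTower E0 (fixedField G) L]

end

end Pool.Agent.W619.PQ
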