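import Mathlib
import Pool.Agent.H90.P.Ns
import Pool.Agent.H90.P.Helper386.D5V.Helper386_FF_Fund
import Pool.Agent.H90.P.Helper386.D5V.Helper386_FF_Place
import Pool.Agent.H90.P.Helper386.D5V.Helper399_FF4a
import Pool.Agent.H90.P.Helper386.D5V.Helper399_FF4b
import Pool.Agent.H90.P.Helper386.D5V.Helper399_OverDefs
import Pool.Agent.H90.P.W603.LV.Ord

/-! The trace of an element which is idempotent modulo a place. -/

set_option autoImplicit false
set_option linter.overlappingInstances false
set_option linter.unusedSectionVars false

open Polynomial FF IsDedekindDomain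

namespace Pool.Agent.W619.PQ

open Pool.Agent.W603.LV

section

variable {k K F : Type*} [Field k] [Field K] [Field F] [Algebra k K] [Algebra k F] [Algebra K F]
  [IsScalarTower k K F]

/-- The algebra structure of `F` over the valuation ring of a place of the subfield `K`. -/
noncomputable abbrev algO (q : Place k K) : Algebra q.O F := ((algebraMap K F).comp q.O.subtype).toAlgebra

/-- The algebra structure of the valuation ring over the constants. -/
noncomputable abbrev algk (q : Place k K) : Algebra k q.O :=
  ((algebraMap k K).codRestrict q.O (fun c => q.reg_const c)).toAlgebra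

theorem mem_maximalIdeal_iff (q : Place k K) (a : q.O) :
    a ∈ IsLocalRing.maximalIdeal q.O ↔ Ge q 1 (a : K) := by
  rw [IsLocalRing.mem_maximalIdeal, mem_nonunits_iff, q.isUnit_O_iff a.2]
  unfold Ge
  by_cases h : (a : K) = 0
  · simp [h]
  · have := (q.reg_iff h).1 a.2
    simp only [h, ne_eq, not_false_eq_true, true_and, false_or]
    omega

/-- An element regular at all places over `q` is integral over the valuation ring of `q`. -/
theorem isIntegral_of_reg [CharZero k] [FiniteDimensional K F] (q : Place k K) (z : F)
    (hz : ∀ (w : Place k F) (e : ℕ), Over w q e → Ge w 0 z) :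
    letI := algO (F := F) q
    IsIntegral q.O z := by
  classical
  let iA : Algebra q.O F := algO q
  let ik : Algebra k q.O := algk q
  obtain ⟨t, ht0, ht⟩ := q.surj
  have htr : q.Reg t := Or.inr (by omega)
  have : IsDiscreteValuationRing q.O := q.isDVR
  have : CharZero K := charZero_of_injective_algebraMap (algebraMap k K).injective
  have : IsScalarTower q.O K F := IsScalarTower.of_algebraMap_eq fun _ => rfl
  have : IsScalarTower k q.O F := IsScalarTower.of_algebraMap_eq fun c => by
    rw [IsScalarTower.algebraMap_apply k K F]
    rfl
  let B := integralClosure q.O F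
  have : IsDedekindDomain B := integralClosure.isDedekindDomain q.O K F
  have : IsFractionRing B F := integralClosure.isFractionRing_of_finite_extension K F
  have hsc : IsScalarTower k B F := by
    refine IsScalarTower.of_algebraMap_eq fun c => ?_
    rw [IsScalarTower.algebraMap_apply k q.O B, ← IsScalarTower.algebraMap_apply q.O B F,
      ← IsScalarTower.algebraMap_apply k q.O F]
  have key : z ∈ (algebraMap B F).range := by
    apply HeightOneSpectrum.mem_integers_of_valuation_le_one
    intro P
    by_cases hz0 : z = 0
    · rw [hz0, map_zero]; exact zero_le_one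
    rw [← placeOf_nonneg (k := k) (L := F) P hz0]
    -- the place lies over q
    have h1 : ∀ f : K, q.Reg f → (placeOf (k := k) (L := F) P).Reg (algebraMap K F f) := by
      intro f hf
      have := placeOf_reg (k := k) (L := F) P (algebraMap q.O B ⟨f, hf⟩)
      rwa [← IsScalarTower.algebraMap_apply q.O B F] at this
    have h2 : 0 < (placeOf (k := k) (L := F) P).ord (algebraMap K F t) := by
      have htF : algebraMap K F t ≠ 0 := by simpa using ht0
      have h3 : (placeOf (k := k) (L := F) P).red (algebraMap B F (algebraMap q.O B ⟨t, htr⟩)) = 0 := by
        rw [placeOf_red_eq_zero]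
        -- P ∩ O is the maximal ideal
        have hne : P.asIdeal.comap (algebraMap q.O B) ≠ ⊥ := by
          apply Ideal.comap_ne_bot_of_integral_mem (x := _) ?_ ?_ (integralClosure.isIntegral _) 
          · exact (Submodule.ne_bot_iff _).1 P.ne_bot |>.choose
          · exact ((Submodule.ne_bot_iff _).1 P.ne_bot).choose_spec.2
          · exact ((Submodule.ne_bot_iff _).1 P.ne_bot).choose_spec.1
        have hprime : (P.asIdeal.comap (algebraMap q.O B)).IsPrime :=
          Ideal.IsPrime.comap _ (hK := P.isPrime)
        have hmax : (P.asIdeal.comap (algebraMap q.O B)).IsMaximal := hprime.isMaximal hne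
        have heq := IsLocalRing.eq_maximalIdeal hmax
        have : (⟨t, htr⟩ : q.O) ∈ P.asIdeal.comap (algebraMap q.O B) := by
          rw [heq, mem_maximalIdeal_iff]
          exact Or.inr ht.ge
        exact this
      rw [Place.red_eq_zero_iff _ (placeOf_reg _ _), ← IsScalarTower.algebraMap_apply q.O B F] at h3
      exact h3.resolve_left htF
    have h4 := over_of_reg (placeOf (k := k) (L := F) P) q t ht0 ht h1 h2
    exact (hz _ _ h4).resolve_left hz0
  obtain ⟨b, rfl⟩ := key
  exact b.2

end

end Pool.Agent.W619.PQ
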